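import Pool.Agent.Lib.MP_688fd0_co.LIN.Iface

/-!
NEXT (Cor 5).
-/

set_option autoImplicit false

namespace Pool.Agent.Lib.MP_688fd0_co.LIN.H63

open Classical
open Pool.Agent.Lib.MP_688fd0_co.LIN
open Pool.Agent.Lib.MP_688fd0_co.LP (IsP Conn Cyc Symm cay)

universe u

lemma cyc_mono {V : Type*} {G H : SimpleGraph V} (h : H ≤ G) {c : List V} (hc : Cyc H c) :
    Cyc G c := by
  obtain ⟨⟨h1, h2, h3⟩, h4, a, b, h5, h6, h7⟩ := hc
  exact ⟨⟨h1, h2.imp fun _ _ hab => h hab, h3⟩, h4, a, b, h5, h6, h h7⟩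

/-- phi at `2 l` -/
lemma phi_two {V : Type*} [Fintype V] (l : ℕ) (H : SimpleGraph V) :
    phi (2 * l) H = phi l H - l * ncyc H := by
  unfold phi
  push_cast
  ring

/-- The arithmetic. -/
lemma arith_next {K : ℕ} (hK : 2 ≤ K) {p l N x n : ℝ} (hn : x * n ≤ p - l * N)
    (hx : 0 ≤ x * n) (hstep : K * (l * N) ≤ p) :
    x * (1 - 1 / ((K : ℝ) - 1)) * n ≤ p - l * N - l * N := by
  have hK' : (2 : ℝ) ≤ K := by exact_mod_cast hK
  have hK1 : (0 : ℝ) < (K : ℝ) - 1 := by linarith
  have h1 : l * N ≤ (p - l * N) / ((K : ℝ) - 1) := by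
    rw [le_div_iff₀ hK1]
    nlinarith
  have h2 : 0 ≤ 1 - 1 / ((K : ℝ) - 1) := by
    rw [sub_nonneg, div_le_one hK1]
    linarith
  calc x * (1 - 1 / ((K : ℝ) - 1)) * n = x * n * (1 - 1 / ((K : ℝ) - 1)) := by ring
    _ ≤ (p - l * N) * (1 - 1 / ((K : ℝ) - 1)) := mul_le_mul_of_nonneg_right hn h2
    _ = (p - l * N) - (p - l * N) / ((K : ℝ) - 1) := by ring
    _ ≤ p - l * N - l * N := by linarith

/-- NEXT -/
theorem next (hstep : StepStatement.{u}) (hiso : IsoStatement.{u}) (hopt : OptStatement.{u})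
    (henum : EnumStatement.{u}) : NextStatement.{u} := by
  intro V _ G hVT d l K r hdeg hK hbl hb x hx hR
  obtain ⟨⟨H, hO⟩, hopt2⟩ := hopt V G l
  obtain ⟨hlong, -, hphi0⟩ := hopt2 H hO
  obtain ⟨H0, hH0, hR0⟩ := hR
  have hne : Nonempty V := hVT.conn.nonempty
  have hcardV : (0 : ℝ) < Fintype.card V := by exact_mod_cast Fintype.card_pos
  have hxn : 0 < x * (Fintype.card V : ℝ) := mul_pos hx hcardV
  have hle : x * (Fintype.card V : ℝ) ≤ ((phi l H : ℤ) : ℝ) := by
    refine hR0.trans ?_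
    exact_mod_cast hO.2 H0 hH0
  have hphi : ((phi l H : ℤ) : ℝ) = ((cov H).card : ℝ) - l * ncyc H := by
    unfold phi
    push_cast
    ring
  have hphi2 : ((phi (2 * l) H : ℤ) : ℝ) = ((cov H).card : ℝ) - l * ncyc H - l * ncyc H := by
    rw [phi_two]
    push_cast
    rw [hphi]
  have key : (K : ℝ) * (l * ncyc H) ≤ (cov H).card → Rat G (2 * l) (x * (1 - 1 / (K - 1))) := by
    intro h
    refine ⟨H, hO.1, ?_⟩
    rw [hphi2]
    exact arith_next hK (by rw [← hphi]; exact hle) hxn.le h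
  -- the number of cycles
  have hN0 : ncyc H ≠ 0 := by
    intro h0
    have h1 : cov H = ∅ := by
      unfold ncyc cycs at h0
      rw [Finset.card_eq_zero, Finset.image_eq_empty] at h0
      exact h0
    rw [hphi, h0, h1] at hle
    simp at hle
    linarith
  rcases Nat.lt_or_ge (ncyc H) 2 with hN | hN
  · have hN1 : ncyc H = 1 := by omega
    have hp : (phi l H : ℤ) ≤ (cov H).card := by
      unfold phi
      have : (0 : ℤ) ≤ (l : ℤ) * ncyc H := by positivity
      omega
    constructor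
    · left
      obtain ⟨v, hv⟩ : (cov H).Nonempty := by
        rw [Finset.nonempty_iff_ne_empty]
        intro h1
        apply hN0
        unfold ncyc cycs
        rw [h1]
        simp
      obtain ⟨c, hc, hcw⟩ := henum V G H hO.1 v hv
      refine ⟨c, cyc_mono hO.1.le hc, hle.trans ?_⟩
      have h2 : cov H ⊆ c.toFinset := by
        intro w hw
        rw [List.mem_toFinset, hcw]
        have h3 : (cycs H).card = 1 := hN1
        obtain ⟨S, hS⟩ := Finset.card_eq_one.1 h3
        have h4 : cyc H v ∈ cycs H := Finset.mem_image_of_mem _ hv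
        have h5 : cyc H w ∈ cycs H := Finset.mem_image_of_mem _ hw
        rw [hS, Finset.mem_singleton] at h4 h5
        have h6 : w ∈ cyc H w := by
          unfold cyc
          simp
        rw [h5, ← h4] at h6
        unfold cyc at h6
        simpa using h6
      have h3 : (cov H).card ≤ c.length := (Finset.card_le_card h2).trans (List.toFinset_card_le c)
      exact_mod_cast hp.trans (by exact_mod_cast h3)
    · intro hKl
      apply key
      rw [hN1]
      push_cast
      have h1 : ((phi l H : ℤ) : ℝ) ≤ (cov H).card := by exact_mod_cast hp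
      linarith
  · have h16 : 16 ≤ l := by
      have h1 : 2 ^ 55 * 1 ≤ 2 ^ 55 * (d + 1) ^ 3 * K ^ 3 * (r + 1) := by
        have h2 : 1 ≤ (d + 1) ^ 3 * K ^ 3 * (r + 1) := by
          have : 0 < (d + 1) ^ 3 * K ^ 3 * (r + 1) := by positivity
          omega
        calc 2 ^ 55 * 1 ≤ 2 ^ 55 * ((d + 1) ^ 3 * K ^ 3 * (r + 1)) := Nat.mul_le_mul_left _ h2
          _ = 2 ^ 55 * (d + 1) ^ 3 * K ^ 3 * (r + 1) := by ring
      omega
    have hI : ∀ S ∈ cycs H, Iso G (hcls H) S (2 ^ 51 * (d + 1) ^ 3 * K ^ 3) := by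
      refine hiso V G H hVT hO.1 l _ r (fun v hv => (hlong v hv).1) hN hbl ?_
      calc 16 * (r + 1) * (2 ^ 51 * (d + 1) ^ 3 * K ^ 3)
          = 2 ^ 55 * (d + 1) ^ 3 * K ^ 3 * (r + 1) := by ring
        _ ≤ bn G r := hb
    have hs := hstep V G H d l K _ hdeg hO (by omega) h16 hI le_rfl hN
    have hs' : (K : ℝ) * (l * ncyc H) ≤ (cov H).card := by
      have : (K * l * ncyc H : ℕ) ≤ (cov H).card := hs.le
      have h2 : ((K * l * ncyc H : ℕ) : ℝ) ≤ ((cov H).card : ℝ) := by exact_mod_cast this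
      push_cast at h2
      linarith
    exact ⟨Or.inr (key hs'), fun _ => key hs'⟩

end Pool.Agent.Lib.MP_688fd0_co.LIN.H63
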