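import Pool.Agent.Lib.MP_688fd0_co.LIN.Iface

/-!
STEP: assembly of WINDOWS, STEPA, STEPB.
-/

set_option autoImplicit false

namespace Pool.Agent.Lib.MP_688fd0_co.LIN.H63

open Classical
open Pool.Agent.Lib.MP_688fd0_co.LIN
open Pool.Agent.Lib.MP_688fd0_co.LP (IsP Conn Cyc Symm cay)

universe u

/-- STEP -/
theorem step (hopt : OptStatement.{u}) (hw : WindowsStatement.{u}) (ha : StepAStatement.{u})
    (hb : StepBStatement.{u}) : StepStatement.{u} := by
  intro V _ G H d l K q hdeg hO hK hl hiso hq hN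
  by_contra hcon
  push Not at hcon
  have hlen := (hopt V G l).2 H hO
  obtain ⟨W, hW1, hW2, hW3, hW4, hW5⟩ := hw V G H hO.1 (l / 16) (by omega)
    (fun v hv => by
      have := (hlen.1 v hv).1
      omega)
  obtain ⟨M', Kp, hkept, hcard⟩ := ha V G H d l K q W hdeg hO hK hl hiso hq hN hcon hW1 hW2 hW3 hW4
  exact hb V G H d l K W M' Kp hO hK hl hN hcon hW1 hW2 hW3 hW5 hkept hcard

end Pool.Agent.Lib.MP_688fd0_co.LIN.H63
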